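import Pool.Graph.R_pool_sql_team_668148b0.Results.MP_f8fe2f_lc.FiniteIndexHypersmooth
import Pool.Agent.KS6_90.HSW.A

/-!
# MP_f8fe2f_lc: hypersmoothness and finite index in the weak sense

The library proves that finite index extensions of hypersmooth Borel equivalence relations are
hypersmooth. Here the extension hypothesis is dropped: if `φ : X → Y` is a Borel map which is
countable-to-one modulo the hypersmooth relation `E` on `Y`, and `F` is a Borel equivalence
relation on `X` such that `φ` maps every `F`-class into finitely many `E`-classes, then `F` is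
hypersmooth. This contains both finite index extensions and subrelations of countable relations,
and gives the invariance of hypersmoothness under commensurability.
-/

set_option autoImplicit false

open MeasureTheory Set

namespace Pool.Agent.Results.MP_f8fe2f_lc.WeakFiniteIndex

open Pool.Agent.Results.MP_f8fe2f_lc.FiniteIndexHypersmooth

/-- `R` is a countable Borel equivalence relation on `X`. -/
def IsCBER {X : Type} [MeasurableSpace X] (R : X → X → Prop) : Prop :=
  IsBorelEquivalence R ∧ ∀ x, {y | R x y}.Countable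

/-- Every class of `F` is covered by finitely many classes of `E`. -/
def FinitelyCovered {X : Type} (F E : X → X → Prop) : Prop :=
  ∀ x, ∃ s : Set X, s.Finite ∧ ∀ y, F x y → ∃ z ∈ s, E z y

theorem weak (X Y : Type) [TopologicalSpace X] [PolishSpace X] [MeasurableSpace X] [BorelSpace X]
    [TopologicalSpace Y] [PolishSpace Y] [MeasurableSpace Y] [BorelSpace Y]
    (E : Y → Y → Prop) (F : X → X → Prop) (φ : X → Y) (hE : IsBorelEquivalence E)
    (hEs : IsHypersmooth E) (hF : IsBorelEquivalence F) (hφ : Measurable φ)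
    (hc : ∀ y, {x | E y (φ x)}.Countable)
    (hfin : ∀ x, ∃ s : Set Y, s.Finite ∧ ∀ x', F x x' → ∃ y ∈ s, E y (φ x')) :
    IsHypersmooth F := by
  classical
  obtain ⟨S, hS, hSm, hSE⟩ := hEs
  have hreal : ∀ n, ∃ f : Y → ℝ, Measurable f ∧ ∀ x y, S n x y ↔ f x = f y := by
    intro n
    obtain ⟨Z, tZ, pZ, mZ, bZ, f, hf, hfS⟩ := hS n
    have hemb := MeasureTheory.measurableEmbedding_embeddingReal Z
    refine ⟨fun x => MeasureTheory.embeddingReal Z (f x), hemb.measurable.comp hf, ?_⟩
    intro x y
    rw [hfS]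
    constructor
    · intro h
      show MeasureTheory.embeddingReal Z (f x) = MeasureTheory.embeddingReal Z (f y)
      rw [h]
    · intro h
      exact hemb.injective h
  choose f hf hfS using hreal
  have hEf : ∀ x y, E x y ↔ ∃ n, f n x = f n y := fun x y => by
    rw [hSE]
    exact exists_congr fun n => hfS n x y
  obtain ⟨g, hg, hgm, hgF⟩ := Pool.Agent.KS6_90.HSW.main (fun n x => f n (φ x))
    (fun n => (hf n).comp hφ)
    (fun n x y h => (hfS _ _ _).1 (hSm _ _ _ ((hfS _ _ _).2 h)))
    (fun x => (hc (φ x)).mono fun y hy => (hEf _ _).2 hy) F hF.1 hF.2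
    (fun x => by
      obtain ⟨s, hs, hx⟩ := hfin x
      let r : Y → X := fun y => if h : ∃ x', E y (φ x') then h.choose else x
      refine ⟨hs.toFinset.image r, fun x' hx' => ?_⟩
      obtain ⟨y, hy, h1⟩ := hx x' hx'
      have h : ∃ x', E y (φ x') := ⟨x', h1⟩
      have hr : r y = h.choose := dif_pos h
      refine ⟨r y, Finset.mem_image_of_mem r (hs.mem_toFinset.2 hy), ?_⟩
      rw [hr]
      exact (hEf _ _).1 (hE.1.trans (hE.1.symm h.choose_spec) h1))
  refine ⟨fun n x y => g n x = g n y, ?_, hgm, hgF⟩
  intro n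
  exact ⟨ℝ, inferInstance, inferInstance, inferInstance, inferInstance, g n, hg n,
    fun x y => Iff.rfl⟩

theorem weak_id (X : Type) [TopologicalSpace X] [PolishSpace X] [MeasurableSpace X] [BorelSpace X]
    (E F : X → X → Prop) (hE : IsCBER E) (hF : IsBorelEquivalence F) (h : FinitelyCovered F E)
    (hEs : IsHypersmooth E) : IsHypersmooth F :=
  weak X X E F id hE.1 hEs hF measurable_id hE.2 h

/-- The orbit equivalence relation of a subgroup. -/
def Orb {G X : Type} [Group G] [MulAction G X] (H : Subgroup G) (x y : X) : Prop :=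
  ∃ h ∈ H, h • x = y

theorem orb_cber {G X : Type} [Group G] [Countable G] [TopologicalSpace X] [PolishSpace X]
    [MeasurableSpace X] [BorelSpace X] [MulAction G X]
    (hm : ∀ g : G, Measurable fun x : X => g • x) (H : Subgroup G) :
    IsCBER (Orb H : X → X → Prop) := by
  refine ⟨⟨⟨fun x => ⟨1, H.one_mem, one_smul G x⟩, ?_, ?_⟩, ?_⟩, fun x => ?_⟩
  · rintro x y ⟨h, hh, rfl⟩
    exact ⟨h⁻¹, H.inv_mem hh, inv_smul_smul h x⟩
  · rintro x y z ⟨h, hh, rfl⟩ ⟨k, hk, rfl⟩
    exact ⟨k * h, H.mul_mem hk hh, mul_smul k h x⟩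
  · have e : {p : X × X | Orb H p.1 p.2} = ⋃ h : H, {p : X × X | (h : G) • p.1 = p.2} := by
      ext p
      simp only [Orb, Set.mem_ofPred_eq, mem_iUnion, Subtype.exists, exists_prop]
    rw [e]
    exact MeasurableSet.iUnion fun h =>
      measurableSet_eq_fun ((hm h).comp measurable_fst) measurable_snd
  · have e : {y | Orb H x y} = range fun h : H => (h : G) • x := by
      ext y
      simp only [Orb, Set.mem_ofPred_eq, mem_range, Subtype.exists, exists_prop]
    rw [e]
    exact countable_range _

theorem result :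
    -- (1) finite index extensions, classes of arbitrary size (the library's theorem)
    (∀ (X : Type) [TopologicalSpace X] [PolishSpace X] [MeasurableSpace X] [BorelSpace X]
      (E F : X → X → Prop), IsBorelEquivalence E → IsBorelEquivalence F →
      IsFiniteIndexExtension E F → IsHypersmooth E → IsHypersmooth F) ∧
    -- (2) relations mapped with weak finite index into a hypersmooth relation
    (∀ (X Y : Type) [TopologicalSpace X] [PolishSpace X] [MeasurableSpace X] [BorelSpace X]
      [TopologicalSpace Y] [PolishSpace Y] [MeasurableSpace Y] [BorelSpace Y]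
      (E : Y → Y → Prop) (F : X → X → Prop) (φ : X → Y), IsBorelEquivalence E →
      IsHypersmooth E → IsBorelEquivalence F → Measurable φ →
      (∀ y, {x | E y (φ x)}.Countable) →
      (∀ x, ∃ s : Set Y, s.Finite ∧ ∀ x', F x x' → ∃ y ∈ s, E y (φ x')) →
      IsHypersmooth F) ∧
    -- (3) hypersmoothness of countable relations is invariant under commensurability
    (∀ (X : Type) [TopologicalSpace X] [PolishSpace X] [MeasurableSpace X] [BorelSpace X]
      (E F : X → X → Prop), IsCBER E → IsCBER F → FinitelyCovered F E → FinitelyCovered E F →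
      (IsHypersmooth E ↔ IsHypersmooth F)) ∧
    -- (4) commensurable subgroups of a countable group acting in a Borel way
    (∀ (G X : Type) [Group G] [Countable G] [TopologicalSpace X] [PolishSpace X]
      [MeasurableSpace X] [BorelSpace X] [MulAction G X],
      (∀ g : G, Measurable fun x : X => g • x) → ∀ H K : Subgroup G,
      Subgroup.Commensurable H K →
      (IsHypersmooth (Orb H : X → X → Prop) ↔ IsHypersmooth (Orb K : X → X → Prop))) := by
  have h3 : ∀ (X : Type) [TopologicalSpace X] [PolishSpace X] [MeasurableSpace X] [BorelSpace X]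
      (E F : X → X → Prop), IsCBER E → IsCBER F → FinitelyCovered F E → FinitelyCovered E F →
      (IsHypersmooth E ↔ IsHypersmooth F) := by
    intro X _ _ _ _ E F hE hF h1 h2
    exact ⟨weak_id X E F hE hF.1 h1, weak_id X F E hF hE.1 h2⟩
  refine ⟨fun X _ _ _ _ E F hE hF h hs => FiniteIndexHypersmooth.result X E F hE hF h hs,
    fun X Y _ _ _ _ _ _ _ _ E F φ hE hEs hF hφ hc hfin => weak X Y E F φ hE hEs hF hφ hc hfin,
    h3, ?_⟩
  intro G X _ _ _ _ _ _ _ hm H K hHK
  have cov : ∀ H K : Subgroup G, K.relIndex H ≠ 0 →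
      FinitelyCovered (Orb H : X → X → Prop) (Orb K) := by
    intro H K hH x
    let L : Subgroup H := K.subgroupOf H
    have hfin : L.FiniteIndex := ⟨hH⟩
    have : Finite (H ⧸ L) := Subgroup.finite_quotient_of_finiteIndex
    refine ⟨range fun q : H ⧸ L => ((q.out : H) : G)⁻¹ • x, finite_range _, ?_⟩
    rintro y ⟨h, hh, rfl⟩
    let h' : H := ⟨h, hh⟩
    refine ⟨_, mem_range_self (QuotientGroup.mk h'⁻¹ : H ⧸ L), ?_⟩
    let t : H := (QuotientGroup.mk h'⁻¹ : H ⧸ L).out
    have ht : t⁻¹ * h'⁻¹ ∈ L := QuotientGroup.eq.1 (Quotient.out_eq' _)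
    have hk : ((t⁻¹ * h'⁻¹ : H) : G) ∈ K := Subgroup.mem_subgroupOf.1 ht
    refine ⟨((t⁻¹ * h'⁻¹ : H) : G)⁻¹, K.inv_mem hk, ?_⟩
    show ((t⁻¹ * h'⁻¹ : H) : G)⁻¹ • ((t : G)⁻¹ • x) = h • x
    rw [smul_smul]
    congr 1
    have : (((t⁻¹ * h'⁻¹)⁻¹ * t⁻¹ : H) : G) = h' := by
      congr 1
      group
    exact this
  exact h3 X _ _ (orb_cber hm H) (orb_cber hm K) (cov K H hHK.1) (cov H K hHK.2)

end Pool.Agent.Results.MP_f8fe2f_lc.WeakFiniteIndex
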